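import Pool.Agent.H40.U6

set_option autoImplicit false

namespace Pool.Agent.Results.MP_0f0156_lc.Model

open Pool.Agent.H40 Pool.Agent.H40.Bspt Pool.Agent.H40.Jz

theorem result : ∃ (M : Type) (E : M → M → Prop), IsZF E ∧ ∃ P R : M, Forcing E P R ∧
    Narrow E P R ∧ ¬ UnifNarrow E P R := by
  obtain ⟨M, E, K, Q, R, F, t, L⟩ := UZ.ex_lm
  exact ⟨M, E, L.zf, Q, R, L.forcing, L.narrow, L.not_unif⟩

end Pool.Agent.Results.MP_0f0156_lc.Model
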